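import Pool.Agent.Helper23.GK.StA

/-!
# Project GK, module GPP: the step for one prime
-/

set_option autoImplicit false

namespace Pool.Agent.Helper64.GK

open Pool.Agent.Helper23.GK
open Finset

/-! ### Finite Fourier analysis -/

private theorem normsq_sum {G : Type} [AddCommGroup G] [Finite G] {β : Type} (Z : Finset β)
    (h : β → G) (ψ : AddChar G ℂ) :
    ((‖∑ z ∈ Z, ψ (h z)‖ ^ 2 : ℝ) : ℂ) = ∑ w ∈ Z ×ˢ Z, ψ (h w.1 - h w.2) := by
  rw [Finset.sum_product, ← Complex.normSq_eq_norm_sq, Complex.normSq_eq_conj_mul_self, map_sum,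
    mul_comm, Finset.sum_mul_sum]
  refine Finset.sum_congr rfl fun x _ => Finset.sum_congr rfl fun y _ => ?_
  rw [sub_eq_add_neg, AddChar.map_add_eq_mul, AddChar.map_neg_eq_conj]

private theorem map_sum_prod {G : Type} [AddCommGroup G] {m : ℕ} (ψ : AddChar G ℂ)
    (f : Fin m → G) : ψ (∑ i, f i) = ∏ i, ψ (f i) := by
  have := map_prod ψ.toMonoidHom (fun i => Multiplicative.ofAdd (f i)) univ
  rw [← ofAdd_sum] at this
  exact this

private theorem fourier_count {G : Type} [AddCommGroup G] [Fintype G] [DecidableEq G]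
    {α : Type} (T : Finset α) (g : α → G) (φ : ℕ → G) (s : ℕ) (B : Finset ℕ) :
    (Fintype.card G : ℝ) * ((((T ×ˢ T) ×ˢ ((Fintype.piFinset fun _ : Fin s => B) ×ˢ
      (Fintype.piFinset fun _ : Fin s => B))).filter
      (fun z : (α × α) × ((Fin s → ℕ) × (Fin s → ℕ)) =>
        g z.1.1 - g z.1.2 + (∑ i, φ (z.2.1 i) - ∑ i, φ (z.2.2 i)) = 0)).card : ℝ) =
      ∑ ψ : AddChar G ℂ, ‖∑ x ∈ T, ψ (g x)‖ ^ 2 * ‖∑ n ∈ B, ψ (φ n)‖ ^ (2 * s) := by
  have key : ((∑ ψ : AddChar G ℂ, ‖∑ x ∈ T, ψ (g x)‖ ^ 2 * ‖∑ n ∈ B, ψ (φ n)‖ ^ (2 * s) : ℝ) : ℂ)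
      = ((Fintype.card G : ℝ) * ((((T ×ˢ T) ×ˢ ((Fintype.piFinset fun _ : Fin s => B) ×ˢ
      (Fintype.piFinset fun _ : Fin s => B))).filter
      (fun z : (α × α) × ((Fin s → ℕ) × (Fin s → ℕ)) =>
        g z.1.1 - g z.1.2 + (∑ i, φ (z.2.1 i) - ∑ i, φ (z.2.2 i)) = 0)).card : ℝ) : ℝ) := by
    push_cast
    rw [Finset.card_filter]
    push_cast
    rw [Finset.mul_sum]
    have h1 : ∀ ψ : AddChar G ℂ, ((‖∑ x ∈ T, ψ (g x)‖ : ℂ)) ^ 2 *
        ((‖∑ n ∈ B, ψ (φ n)‖ : ℂ)) ^ (2 * s) =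
        ∑ z ∈ (T ×ˢ T) ×ˢ ((Fintype.piFinset fun _ : Fin s => B) ×ˢ
          (Fintype.piFinset fun _ : Fin s => B)),
          ψ (g z.1.1 - g z.1.2 + (∑ i, φ (z.2.1 i) - ∑ i, φ (z.2.2 i))) := by
      intro ψ
      have e1 := normsq_sum T g ψ
      have e2 := normsq_sum (Fintype.piFinset fun _ : Fin s => B)
        (fun u : Fin s → ℕ => ∑ i, φ (u i)) ψ
      have e3 : ∑ u ∈ Fintype.piFinset (fun _ : Fin s => B), ψ (∑ i, φ (u i)) =
          (∑ n ∈ B, ψ (φ n)) ^ s := by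
        have := Finset.prod_univ_sum (κ := fun _ : Fin s => ℕ) (fun _ : Fin s => B)
          (fun _ n => ψ (φ n))
        rw [Finset.prod_const, card_univ, Fintype.card_fin] at this
        rw [this]
        refine Finset.sum_congr rfl fun u _ => ?_
        exact map_sum_prod ψ _
      rw [e3] at e2
      rw [norm_pow, ← pow_mul, mul_comm s 2] at e2
      push_cast at e1 e2
      rw [e1, e2, Finset.sum_mul_sum, ← Finset.sum_product']
      refine Finset.sum_congr rfl fun z _ => ?_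
      rw [← AddChar.map_add_eq_mul]
    rw [Finset.sum_congr rfl fun ψ _ => h1 ψ, Finset.sum_comm]
    refine Finset.sum_congr rfl fun z _ => ?_
    rw [AddChar.sum_apply_eq_ite]
    split_ifs <;> simp
  exact_mod_cast key.symm

/-- Hölder's inequality for the counts, split into `p` classes. -/
private theorem holder_count {G : Type} [AddCommGroup G] [Fintype G] [DecidableEq G]
    {α : Type} (T : Finset α) (g : α → G) (φ : ℕ → G) (s p : ℕ) (hs : 1 ≤ s) (hp : 0 < p)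
    (B : Finset ℕ) :
    (((T ×ˢ T) ×ˢ ((Fintype.piFinset fun _ : Fin s => B) ×ˢ
      (Fintype.piFinset fun _ : Fin s => B))).filter
      (fun z : (α × α) × ((Fin s → ℕ) × (Fin s → ℕ)) =>
        g z.1.1 - g z.1.2 + (∑ i, φ (z.2.1 i) - ∑ i, φ (z.2.2 i)) = 0)).card ≤
    p ^ (2 * s - 1) * ∑ a ∈ range p,
      (((T ×ˢ T) ×ˢ ((Fintype.piFinset fun _ : Fin s => B.filter (fun n => n % p = a)) ×ˢ
      (Fintype.piFinset fun _ : Fin s => B.filter (fun n => n % p = a)))).filter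
      (fun z : (α × α) × ((Fin s → ℕ) × (Fin s → ℕ)) =>
        g z.1.1 - g z.1.2 + (∑ i, φ (z.2.1 i) - ∑ i, φ (z.2.2 i)) = 0)).card := by
  have hc : (0 : ℝ) < Fintype.card G := by exact_mod_cast Fintype.card_pos
  rw [← Nat.cast_le (α := ℝ), ← mul_le_mul_iff_right₀ hc]
  push_cast
  rw [fourier_count, mul_left_comm, Finset.mul_sum]
  simp_rw [fourier_count]
  rw [Finset.sum_comm, Finset.mul_sum]
  refine Finset.sum_le_sum fun ψ _ => ?_
  rw [← Finset.mul_sum, mul_left_comm]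
  refine mul_le_mul_of_nonneg_left ?_ (by positivity)
  have h1 : ∑ n ∈ B, ψ (φ n) = ∑ a ∈ range p, ∑ n ∈ B.filter (fun n => n % p = a), ψ (φ n) := by
    rw [Finset.sum_fiberwise_of_maps_to]
    intro n _
    exact mem_range.2 (Nat.mod_lt _ hp)
  have h2 : 2 * s = (2 * s - 1) + 1 := by omega
  rw [h1]
  calc ‖∑ a ∈ range p, ∑ n ∈ B.filter (fun n => n % p = a), ψ (φ n)‖ ^ (2 * s)
      ≤ (∑ a ∈ range p, ‖∑ n ∈ B.filter (fun n => n % p = a), ψ (φ n)‖) ^ (2 * s) := by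
        gcongr
        exact norm_sum_le _ _
    _ ≤ (p : ℝ) ^ (2 * s - 1) *
        ∑ a ∈ range p, ‖∑ n ∈ B.filter (fun n => n % p = a), ψ (φ n)‖ ^ (2 * s) := by
        have := pow_sum_le_card_mul_sum_pow (s := range p)
          (f := fun a => ‖∑ n ∈ B.filter (fun n => n % p = a), ψ (φ n)‖)
          (fun a _ => norm_nonneg _) (2 * s - 1)
        rw [card_range, ← h2] at this
        exact this

/-! ### The system -/

open Classical in
/-- incongruent tuples -/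
private noncomputable def TT (k X p : ℕ) : Finset (Fin k → ℕ) :=
  (Fintype.piFinset (fun _ : Fin k => Icc 1 X)).filter (fun x => Inc p x)

open Classical in
/-- the solutions with the last variables in `B` -/
private noncomputable def NS (k s X p : ℕ) (B : Finset ℕ) :
    Finset (((Fin k → ℕ) × (Fin k → ℕ)) × ((Fin s → ℕ) × (Fin s → ℕ))) :=
  ((TT k X p ×ˢ TT k X p) ×ˢ ((Fintype.piFinset fun _ : Fin s => B) ×ˢ
      (Fintype.piFinset fun _ : Fin s => B))).filter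
    (fun z : ((Fin k → ℕ) × (Fin k → ℕ)) × ((Fin s → ℕ) × (Fin s → ℕ)) =>
      ∀ j ∈ Icc 1 k, ∑ i, z.1.1 i ^ j + ∑ i, z.2.1 i ^ j =
        ∑ i, z.1.2 i ^ j + ∑ i, z.2.2 i ^ j)

private theorem mem_TT {k X p : ℕ} {x : Fin k → ℕ} :
    x ∈ TT k X p ↔ (∀ i, x i ∈ Icc 1 X) ∧ Inc p x := by
  simp only [TT, mem_filter, Fintype.mem_piFinset]

private theorem mem_NS {k s X p : ℕ} {B : Finset ℕ}
    {z : ((Fin k → ℕ) × (Fin k → ℕ)) × ((Fin s → ℕ) × (Fin s → ℕ))} :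
    z ∈ NS k s X p B ↔ ((z.1.1 ∈ TT k X p ∧ z.1.2 ∈ TT k X p) ∧
      (∀ i, z.2.1 i ∈ B) ∧ (∀ i, z.2.2 i ∈ B)) ∧
      ∀ j ∈ Icc 1 k, ∑ i, z.1.1 i ^ j + ∑ i, z.2.1 i ^ j =
        ∑ i, z.1.2 i ^ j + ∑ i, z.2.2 i ^ j := by
  simp only [NS, mem_filter, mem_product, Fintype.mem_piFinset]

/-- their number -/
private noncomputable def NB (k s X p : ℕ) (B : Finset ℕ) : ℕ := (NS k s X p B).card

private theorem GG_eq (k s X p : ℕ) : GG k s X p = NB k s X p (Icc 1 X) := by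
  unfold GG NB
  congr 1
  ext z
  rw [mem_NS, mem_TT, mem_TT]
  simp only [mem_filter, mem_product, Fintype.mem_piFinset]
  tauto

private theorem NB_eq (k s X p : ℕ) (B : Finset ℕ) (hB : B ⊆ Icc 1 X) (L : ℕ)
    (hL : L = (k + s) * X ^ k + 1) :
    NB k s X p B = (((TT k X p ×ˢ TT k X p) ×ˢ ((Fintype.piFinset fun _ : Fin s => B) ×ˢ
      (Fintype.piFinset fun _ : Fin s => B))).filter
      (fun z : ((Fin k → ℕ) × (Fin k → ℕ)) × ((Fin s → ℕ) × (Fin s → ℕ)) =>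
        (∑ i, (fun n : ℕ => (fun j : Fin k => ((n ^ (j.1 + 1) : ℕ) : ZMod L))) (z.1.1 i)) -
        (∑ i, (fun n : ℕ => (fun j : Fin k => ((n ^ (j.1 + 1) : ℕ) : ZMod L))) (z.1.2 i)) +
        (∑ i, (fun n : ℕ => (fun j : Fin k => ((n ^ (j.1 + 1) : ℕ) : ZMod L))) (z.2.1 i) -
         ∑ i, (fun n : ℕ => (fun j : Fin k => ((n ^ (j.1 + 1) : ℕ) : ZMod L))) (z.2.2 i)) = 0)).card
      := by
  unfold NB
  congr 1
  ext z
  rw [mem_NS, mem_filter, mem_product, mem_product, mem_product, Fintype.mem_piFinset,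
    Fintype.mem_piFinset]
  refine and_congr_right fun hz => ?_
  obtain ⟨⟨h3, h4⟩, h5, h6⟩ := hz
  have hx : ∀ i, z.1.1 i ∈ Icc 1 X := (mem_TT.1 h3).1
  have hy : ∀ i, z.1.2 i ∈ Icc 1 X := (mem_TT.1 h4).1
  have hu : ∀ i, z.2.1 i ∈ Icc 1 X := fun i => hB (h5 i)
  have hv : ∀ i, z.2.2 i ∈ Icc 1 X := fun i => hB (h6 i)
  have hb : ∀ (m : ℕ) (w : Fin m → ℕ), (∀ i, w i ∈ Icc 1 X) → ∀ j ≤ k,
      ∑ i, w i ^ j ≤ m * X ^ k := by
    intro m w hw j hj
    calc ∑ i, w i ^ j ≤ ∑ _i : Fin m, X ^ k := by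
          refine Finset.sum_le_sum fun i _ => ?_
          obtain ⟨ha, hb⟩ := mem_Icc.1 (hw i)
          exact (Nat.pow_le_pow_left hb j).trans (Nat.pow_le_pow_right (ha.trans hb) hj)
      _ = m * X ^ k := by simp
  have hlt : ∀ (w : Fin k → ℕ) (w' : Fin s → ℕ), (∀ i, w i ∈ Icc 1 X) → (∀ i, w' i ∈ Icc 1 X) →
      ∀ j ≤ k, ∑ i, w i ^ j + ∑ i, w' i ^ j < L := by
    intro w w' hw hw' j hj
    have e1 := hb k w hw j hj
    have e2 := hb s w' hw' j hj
    rw [hL]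
    nlinarith
  constructor
  · intro h
    funext j
    have e := h (j.1 + 1) (mem_Icc.2 ⟨by omega, by omega⟩)
    have e2 := congrArg (fun n : ℕ => (n : ZMod L)) e
    simp only [Pi.add_apply, Pi.sub_apply, Finset.sum_apply, Pi.zero_apply]
    push_cast at e2 ⊢
    linear_combination e2
  · intro h j hj
    obtain ⟨hj1, hjk⟩ := mem_Icc.1 hj
    have e := congrFun h ⟨j - 1, by omega⟩
    have e0 : j - 1 + 1 = j := by omega
    simp only [Pi.add_apply, Pi.sub_apply, Finset.sum_apply, Pi.zero_apply, e0] at e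
    have e2 : ((∑ i, z.1.1 i ^ j + ∑ i, z.2.1 i ^ j : ℕ) : ZMod L) =
        ((∑ i, z.1.2 i ^ j + ∑ i, z.2.2 i ^ j : ℕ) : ZMod L) := by
      push_cast
      push_cast at e
      linear_combination e
    rw [ZMod.natCast_eq_natCast_iff', Nat.mod_eq_of_lt (hlt _ _ hx hu j hjk),
      Nat.mod_eq_of_lt (hlt _ _ hy hv j hjk)] at e2
    exact e2

private theorem NB_holder (k s X p : ℕ) (hs : 1 ≤ s) (hp : 0 < p) :
    NB k s X p (Icc 1 X) ≤ p ^ (2 * s - 1) * ∑ a ∈ range p,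
      NB k s X p ((Icc 1 X).filter (fun n => n % p = a)) := by
  classical
  set L := (k + s) * X ^ k + 1 with hL
  have : NeZero L := ⟨by omega⟩
  rw [NB_eq k s X p (Icc 1 X) (Finset.Subset.refl _) L hL,
    Finset.sum_congr rfl fun a _ => NB_eq k s X p _ (Finset.filter_subset _ _) L hL]
  exact holder_count (TT k X p)
    (fun x => ∑ i, (fun n : ℕ => (fun j : Fin k => ((n ^ (j.1 + 1) : ℕ) : ZMod L))) (x i))
    (fun n : ℕ => (fun j : Fin k => ((n ^ (j.1 + 1) : ℕ) : ZMod L))) s p hs hp (Icc 1 X)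

/-! ### Translation -/

private theorem shift_sum {m : ℕ} (x : Fin m → ℤ) (a : ℤ) (j : ℕ) :
    ∑ i, (x i - a) ^ j = ∑ l ∈ range (j + 1), (∑ i, x i ^ l) * ((-a) ^ (j - l) * (j.choose l)) := by
  simp_rw [Finset.sum_mul]
  rw [Finset.sum_comm]
  refine Finset.sum_congr rfl fun i _ => ?_
  rw [sub_eq_add_neg, add_pow]
  exact Finset.sum_congr rfl fun l _ => by ring

private theorem translate {k s : ℕ} (x y : Fin k → ℤ) (u v : Fin s → ℤ) (a : ℤ)
    (h : ∀ j ∈ Icc 1 k, ∑ i, x i ^ j + ∑ i, u i ^ j = ∑ i, y i ^ j + ∑ i, v i ^ j) :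
    ∀ j ∈ Icc 1 k, ∑ i, (x i - a) ^ j + ∑ i, (u i - a) ^ j =
      ∑ i, (y i - a) ^ j + ∑ i, (v i - a) ^ j := by
  intro j hj
  rw [shift_sum, shift_sum, shift_sum, shift_sum, ← Finset.sum_add_distrib,
    ← Finset.sum_add_distrib]
  refine Finset.sum_congr rfl fun l hl => ?_
  rw [← add_mul, ← add_mul]
  congr 1
  rcases Nat.eq_zero_or_pos l with h0 | h0
  · subst h0
    simp
  · exact h l (mem_Icc.2 ⟨h0, by
      have := mem_range.1 hl
      have := (mem_Icc.1 hj).2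
      omega⟩)

/-! ### One class -/

private theorem one_class (hL : StLin) (hS : StShf) (k s X p : ℕ) (hk : 1 ≤ k) (hp : p.Prime)
    (hkp : k < p) (hX : X ≤ p ^ k) (a : ℕ) :
    NB k s X p ((Icc 1 X).filter (fun n => n % p = a)) ≤
      JJ k s (X / p + 1) * (k.factorial * p ^ (k * (k - 1) / 2) * X ^ k) := by
  classical
  have hp0 : (0 : ℤ) < p := by exact_mod_cast hp.pos
  set B := (Icc 1 X).filter (fun n => n % p = a) with hB
  have hBm : ∀ n ∈ B, (n : ℤ) - a = p * ((n / p : ℕ) : ℤ) ∧ n / p < X / p + 1 := by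
    intro n hn
    obtain ⟨h1, h2⟩ := mem_filter.1 hn
    obtain ⟨h3, h4⟩ := mem_Icc.1 h1
    constructor
    · have h5 := Nat.div_add_mod n p
      rw [h2] at h5
      have h6 : ((p * (n / p) + a : ℕ) : ℤ) = (n : ℤ) := by exact_mod_cast h5
      push_cast at h6 ⊢
      linarith
    · have := Nat.div_le_div_right (c := p) h4
      omega
  -- the pairs `(x, y)`
  set W : Finset ((Fin k → ℕ) × (Fin k → ℕ)) := (TT k X p ×ˢ TT k X p).filter
    (fun w => ∀ j ∈ Icc 1 k, (p : ℤ) ^ j ∣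
      ∑ i, ((w.1 i : ℤ) - a) ^ j - ∑ i, ((w.2 i : ℤ) - a) ^ j) with hW
  have hWm : ∀ w, w ∈ W ↔ (w.1 ∈ TT k X p ∧ w.2 ∈ TT k X p) ∧ ∀ j ∈ Icc 1 k, (p : ℤ) ^ j ∣
      ∑ i, ((w.1 i : ℤ) - a) ^ j - ∑ i, ((w.2 i : ℤ) - a) ^ j := by
    intro w
    rw [hW, mem_filter, mem_product]
  have hWcard : W.card ≤ k.factorial * p ^ (k * (k - 1) / 2) * X ^ k := by
    have h1 : ∀ w ∈ W, w.2 ∈ Fintype.piFinset (fun _ : Fin k => Icc 1 X) := by
      intro w hw
      exact Fintype.mem_piFinset.2 (mem_TT.1 ((hWm w).1 hw).1.2).1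
    have h2 : ∀ y ∈ Fintype.piFinset (fun _ : Fin k => Icc 1 X),
        (W.filter fun w => w.2 = y).card ≤ k.factorial * p ^ (k * (k - 1) / 2) := by
      intro y _
      have h3 := hL k p (1 - (a : ℤ)) (fun j => ∑ i, ((y i : ℤ) - a) ^ j) hk hp hkp
      refine le_trans ?_ h3
      rw [← Set.ncard_coe_finset]
      refine Set.ncard_le_ncard_of_injOn (fun w i => ((w.1 i : ℕ) : ℤ) - a) ?_ ?_ ?_
      · intro w hw
        rw [Finset.mem_coe] at hw
        obtain ⟨hw1, hw2⟩ := mem_filter.1 hw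
        obtain ⟨hw3, hw4⟩ := (hWm w).1 hw1
        obtain ⟨hw5, hw6⟩ := mem_TT.1 hw3.1
        refine ⟨fun i => ?_, fun i j hij hd => ?_, fun j hj => ?_⟩
        · obtain ⟨e1, e2⟩ := mem_Icc.1 (hw5 i)
          have e3 : ((w.1 i : ℕ) : ℤ) ≤ (p : ℤ) ^ k := by exact_mod_cast e2.trans hX
          have e4 : (1 : ℤ) ≤ ((w.1 i : ℕ) : ℤ) := by exact_mod_cast e1
          constructor <;> simp only <;> linarith
        · refine hw6 i j hij ?_
          rw [← Int.natCast_modEq_iff]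
          refine (Int.modEq_iff_dvd.2 ?_).symm
          simpa using hd
        · have := hw4 j hj
          rw [hw2] at this
          exact this
      · intro w hw w' hw' hww
        rw [Finset.mem_coe] at hw hw'
        refine Prod.ext (funext fun i => ?_) ?_
        · have := congrFun hww i
          simp only at this
          have h9 : ((w.1 i : ℕ) : ℤ) = ((w'.1 i : ℕ) : ℤ) := by linarith
          exact_mod_cast h9
        · rw [(mem_filter.1 hw).2, (mem_filter.1 hw').2]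
      · refine Set.Finite.subset (Finset.finite_toSet
          (Fintype.piFinset fun _ : Fin k => Ico (1 - (a : ℤ)) (1 - (a : ℤ) + (p : ℤ) ^ k))) ?_
        intro x hx
        rw [Finset.mem_coe, Fintype.mem_piFinset]
        intro i
        exact mem_Ico.2 (hx.1 i)
    have h4 := Finset.card_le_mul_card_image_of_maps_to h1 _ h2
    rw [Fintype.card_piFinset_const, Nat.card_Icc, Nat.add_sub_cancel] at h4
    exact h4
  -- the pairs `(u, v)` for given `(x, y)`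
  unfold NB
  set F := NS k s X p B with hF
  have hpw : ∀ (u : Fin s → ℕ), (∀ i, u i ∈ B) → ∀ j : ℕ,
      ∑ i, ((u i : ℤ) - a) ^ j = (p : ℤ) ^ j * ∑ i, (((u i / p : ℕ) : ℤ)) ^ j := by
    intro u hu j
    rw [Finset.mul_sum]
    refine Finset.sum_congr rfl fun i _ => ?_
    rw [(hBm _ (hu i)).1, mul_pow]
  have hmain : ∀ z ∈ F, ∀ j ∈ Icc 1 k, ∑ i, ((z.1.1 i : ℤ) - a) ^ j -
      ∑ i, ((z.1.2 i : ℤ) - a) ^ j =
      (p : ℤ) ^ j * (∑ i, (((z.2.2 i / p : ℕ) : ℤ)) ^ j - ∑ i, (((z.2.1 i / p : ℕ) : ℤ)) ^ j) := by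
    intro z hz j hj
    obtain ⟨⟨hz1, hz5, hz6⟩, hz2⟩ := mem_NS.1 hz
    have h1 := translate (fun i => ((z.1.1 i : ℕ) : ℤ)) (fun i => ((z.1.2 i : ℕ) : ℤ))
      (fun i => ((z.2.1 i : ℕ) : ℤ)) (fun i => ((z.2.2 i : ℕ) : ℤ)) (a : ℤ)
      (fun j hj => by exact_mod_cast hz2 j hj) j hj
    rw [hpw _ hz5 j, hpw _ hz6 j] at h1
    linear_combination h1
  have h1 : ∀ z ∈ F, z.1 ∈ W := by
    intro z hz
    refine (hWm _).2 ⟨(mem_NS.1 hz).1.1, fun j hj => ?_⟩
    exact ⟨_, hmain z hz j hj⟩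
  have h2 : ∀ w ∈ W, (F.filter fun z => z.1 = w).card ≤ JJ k s (X / p + 1) := by
    intro w hw
    have h3 := hS k s (X / p + 1) (X / p + 1) 0
      (fun j => (∑ i, ((w.2 i : ℤ) - a) ^ j - ∑ i, ((w.1 i : ℤ) - a) ^ j) / (p : ℤ) ^ j) le_rfl
    refine le_trans ?_ h3
    rw [← Set.ncard_coe_finset]
    refine Set.ncard_le_ncard_of_injOn
      (fun z => ((fun i => ((z.2.1 i / p : ℕ) : ℤ)), (fun i => ((z.2.2 i / p : ℕ) : ℤ)))) ?_ ?_ ?_
    · intro z hz
      rw [Finset.mem_coe] at hz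
      obtain ⟨hz1, hz2⟩ := mem_filter.1 hz
      obtain ⟨⟨-, hz3, hz4⟩, -⟩ := mem_NS.1 hz1
      refine ⟨fun i => ⟨Int.natCast_nonneg _, ?_⟩, fun i => ⟨Int.natCast_nonneg _, ?_⟩,
        fun j hj => ?_⟩
      · have := (hBm _ (hz3 i)).2
        show ((z.2.1 i / p : ℕ) : ℤ) < 0 + ((X / p + 1 : ℕ) : ℤ)
        rw [zero_add]
        exact_mod_cast this
      · have := (hBm _ (hz4 i)).2
        show ((z.2.2 i / p : ℕ) : ℤ) < 0 + ((X / p + 1 : ℕ) : ℤ)
        rw [zero_add]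
        exact_mod_cast this
      · have h4 := hmain z hz1 j hj
        rw [hz2] at h4
        have h5 : ∑ i, ((w.2 i : ℤ) - a) ^ j - ∑ i, ((w.1 i : ℤ) - a) ^ j = (p : ℤ) ^ j *
            (∑ i, (((z.2.1 i / p : ℕ) : ℤ)) ^ j - ∑ i, (((z.2.2 i / p : ℕ) : ℤ)) ^ j) := by
          linear_combination -h4
        simp only
        rw [h5, Int.mul_ediv_cancel_left _ (pow_ne_zero _ hp0.ne')]
    · intro z hz z' hz' hzz
      rw [Finset.mem_coe] at hz hz'
      obtain ⟨hz1, hz2⟩ := mem_filter.1 hz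
      obtain ⟨hz1', hz2'⟩ := mem_filter.1 hz'
      obtain ⟨⟨-, hz3, hz4⟩, -⟩ := mem_NS.1 hz1
      obtain ⟨⟨-, hz3', hz4'⟩, -⟩ := mem_NS.1 hz1'
      obtain ⟨e1, e2⟩ := Prod.mk.inj hzz
      have hd : ∀ n ∈ B, ∀ n' ∈ B, ((n / p : ℕ) : ℤ) = ((n' / p : ℕ) : ℤ) → n = n' := by
        intro n hn n' hn' h
        have h5 := (hBm n hn).1
        have h6 := (hBm n' hn').1
        rw [h] at h5
        have h7 : (n : ℤ) = n' := by linarith
        exact_mod_cast h7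
      refine Prod.ext (hz2.trans hz2'.symm) (Prod.ext (funext fun i => ?_) (funext fun i => ?_))
      · exact hd _ (hz3 i) _ (hz3' i) (congrFun e1 i)
      · exact hd _ (hz4 i) _ (hz4' i) (congrFun e2 i)
    · refine Set.Finite.subset (Finset.finite_toSet
        ((Fintype.piFinset fun _ : Fin s => Ico (0 : ℤ) (0 + ((X / p + 1 : ℕ) : ℤ))) ×ˢ
          (Fintype.piFinset fun _ : Fin s => Ico (0 : ℤ) (0 + ((X / p + 1 : ℕ) : ℤ))))) ?_
      intro x hx
      rw [Finset.mem_coe, mem_product, Fintype.mem_piFinset, Fintype.mem_piFinset]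
      exact ⟨fun i => mem_Ico.2 (hx.1 i), fun i => mem_Ico.2 (hx.2.1 i)⟩
  exact (Finset.card_le_mul_card_image_of_maps_to h1 _ h2).trans (Nat.mul_le_mul_left _ hWcard)

theorem hGPP : StLin → StShf → StGpp := by
  intro hL hS k s X p hk hp hkp hX
  rw [GG_eq]
  rcases Nat.eq_zero_or_pos s with hs | hs
  · subst hs
    have h1 := one_class hL hS k 0 X p hk hp hkp hX 0
    have h2 : NB k 0 X p (Icc 1 X) = NB k 0 X p ((Icc 1 X).filter (fun n => n % p = 0)) := by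
      unfold NB
      refine congrArg Finset.card ?_
      ext z
      rw [mem_NS, mem_NS]
      simp
    rw [h2]
    refine h1.trans (le_of_eq ?_)
    rw [Nat.mul_zero, pow_zero, one_mul, mul_comm]
  · calc NB k s X p (Icc 1 X) ≤ p ^ (2 * s - 1) * ∑ a ∈ range p,
          NB k s X p ((Icc 1 X).filter (fun n => n % p = a)) := NB_holder k s X p hs hp.pos
      _ ≤ p ^ (2 * s - 1) * ∑ _a ∈ range p,
          JJ k s (X / p + 1) * (k.factorial * p ^ (k * (k - 1) / 2) * X ^ k) :=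
        Nat.mul_le_mul_left _ (Finset.sum_le_sum fun a _ => one_class hL hS k s X p hk hp hkp hX a)
      _ = p ^ (2 * s) * (k.factorial * p ^ (k * (k - 1) / 2)) * X ^ k * JJ k s (X / p + 1) := by
        rw [Finset.sum_const, card_range, smul_eq_mul]
        have h2 : 2 * s = (2 * s - 1) + 1 := by omega
        conv_rhs => rw [h2, pow_succ]
        ring

end Pool.Agent.Helper64.GK
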