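import Pool.Agent.Helper23.GK.StA

/-!
# Project GK, module LIN: Linnik's lemma
-/

set_option autoImplicit false

namespace Pool.Agent.Helper64.GK

open Pool.Agent.Helper23.GK
open Finset

/-- elementary symmetric functions of a tuple -/
private noncomputable def es {F : Type} [Field F] {k : ℕ} (x : Fin k → F) (j : ℕ) : F :=
  MvPolynomial.aeval x (MvPolynomial.esymm (Fin k) F j)

private theorem es_newton {F : Type} [Field F] {k : ℕ} (x : Fin k → F) (j : ℕ) :
    (j : F) * es x j = (-1) ^ (j + 1) * ∑ a ∈ antidiagonal j with a.1 < j,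
      (-1) ^ a.1 * es x a.1 * ∑ i, x i ^ a.2 := by
  have h := congrArg (MvPolynomial.aeval x) (MvPolynomial.mul_esymm_eq_sum (Fin k) F j)
  simp only [map_mul, map_natCast, map_pow, map_neg, map_one, map_sum,
    MvPolynomial.psum, MvPolynomial.aeval_X] at h
  exact h

private theorem es_eq {F : Type} [Field F] {k : ℕ} (hF : ∀ j ∈ Icc 1 k, (j : F) ≠ 0)
    (x y : Fin k → F) (h : ∀ j ∈ Icc 1 k, ∑ i, x i ^ j = ∑ i, y i ^ j) (j : ℕ) (hj : j ≤ k) :
    es x j = es y j := by
  induction j using Nat.strong_induction_on with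
  | _ j ih =>
    rcases Nat.eq_zero_or_pos j with hj0 | hj0
    · subst hj0
      simp [es]
    · have h0 : (j : F) ≠ 0 := hF j (mem_Icc.2 ⟨hj0, hj⟩)
      refine mul_left_cancel₀ h0 ?_
      rw [es_newton, es_newton]
      congr 1
      refine Finset.sum_congr rfl fun a ha => ?_
      obtain ⟨ha1, ha2⟩ := mem_filter.1 ha
      rw [HasAntidiagonal.mem_antidiagonal] at ha1
      rw [ih a.1 ha2 (by omega), h a.2 (mem_Icc.2 ⟨by omega, by omega⟩)]

private theorem multiset_eq {F : Type} [Field F] {k : ℕ} (hF : ∀ j ∈ Icc 1 k, (j : F) ≠ 0)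
    (x y : Fin k → F) (h : ∀ j ∈ Icc 1 k, ∑ i, x i ^ j = ∑ i, y i ^ j) :
    (univ : Finset (Fin k)).val.map x = (univ : Finset (Fin k)).val.map y := by
  have key : (((univ : Finset (Fin k)).val.map x).map
        (fun t => Polynomial.X - Polynomial.C t)).prod =
      (((univ : Finset (Fin k)).val.map y).map
        (fun t => Polynomial.X - Polynomial.C t)).prod := by
    rw [Multiset.prod_X_sub_X_eq_sum_esymm, Multiset.prod_X_sub_X_eq_sum_esymm]
    simp only [Multiset.card_map, Finset.card_val, card_univ, Fintype.card_fin]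
    refine Finset.sum_congr rfl fun j hj => ?_
    have hj' : j ≤ k := by
      have := mem_range.1 hj
      omega
    have e := es_eq hF x y h j hj'
    rw [es, es, MvPolynomial.aeval_esymm_eq_multiset_esymm,
      MvPolynomial.aeval_esymm_eq_multiset_esymm] at e
    rw [e]
  have h2 := congrArg Polynomial.roots key
  rwa [Polynomial.roots_multiset_prod_X_sub_C, Polynomial.roots_multiset_prod_X_sub_C] at h2

/-- lifting the congruence modulo `p` to a congruence modulo `p^k` -/
private theorem lift {k p : ℕ} (hp : p.Prime) (hkp : k < p) (x y : Fin k → ℤ)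
    (hy : ∀ i j, i ≠ j → ¬ (p : ℤ) ∣ y i - y j)
    (hxy : ∀ i, (p : ℤ) ∣ x i - y i)
    (h : ∀ j ∈ Icc 1 k, (p : ℤ) ^ k ∣ ∑ i, x i ^ j - ∑ i, y i ^ j) (r : ℕ) (hr1 : 1 ≤ r)
    (hrk : r ≤ k) : ∀ i, (p : ℤ) ^ r ∣ x i - y i := by
  have hfact : Fact p.Prime := ⟨hp⟩
  induction r, hr1 using Nat.le_induction with
  | base => simpa using hxy
  | succ r hr1 ih =>
    have ih' := ih (by omega)
    choose z hz using ih'
    have hp0 : (p : ℤ) ≠ 0 := by exact_mod_cast hp.ne_zero
    have hpr : (p : ℤ) ^ r ≠ 0 := pow_ne_zero _ hp0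
    have hx : ∀ i, x i = y i + (p : ℤ) ^ r * z i := fun i => by linarith [hz i]
    -- the linearised system
    have hlin : ∀ j ∈ Icc 1 k, (p : ℤ) ∣ ∑ i, z i * y i ^ (j - 1) := by
      intro j hj
      obtain ⟨hj1, hjk⟩ := mem_Icc.1 hj
      have h1 : ∀ i, ∃ c : ℤ, x i ^ j - y i ^ j =
          (p : ℤ) ^ r * (j * (z i * y i ^ (j - 1))) + (p : ℤ) ^ (r + 1) * c := by
        intro i
        obtain ⟨c, hc⟩ := Polynomial.powAddExpansion (y i) ((p : ℤ) ^ r * z i) j
        refine ⟨c * (p : ℤ) ^ (r - 1) * z i ^ 2, ?_⟩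
        rw [hx i, hc]
        have e : (p : ℤ) ^ r * (p : ℤ) ^ r = (p : ℤ) ^ (r + 1) * (p : ℤ) ^ (r - 1) := by
          rw [← pow_add, ← pow_add]
          congr 1
          omega
        linear_combination (c * z i ^ 2) * e
      choose c hc using h1
      have h2 : ∑ i, x i ^ j - ∑ i, y i ^ j =
          (p : ℤ) ^ r * (j * ∑ i, z i * y i ^ (j - 1)) + (p : ℤ) ^ (r + 1) * ∑ i, c i := by
        rw [← Finset.sum_sub_distrib, Finset.mul_sum, Finset.mul_sum, Finset.mul_sum,
          ← Finset.sum_add_distrib]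
        exact Finset.sum_congr rfl fun i _ => hc i
      have h3 : (p : ℤ) ^ (r + 1) ∣ ∑ i, x i ^ j - ∑ i, y i ^ j :=
        (pow_dvd_pow _ hrk).trans (h j hj)
      rw [h2] at h3
      have h4 : (p : ℤ) ^ (r + 1) ∣ (p : ℤ) ^ r * (j * ∑ i, z i * y i ^ (j - 1)) :=
        (dvd_add_left (Dvd.intro _ rfl)).1 h3
      rw [pow_succ] at h4
      have h5 : (p : ℤ) ∣ j * ∑ i, z i * y i ^ (j - 1) := (mul_dvd_mul_iff_left hpr).1 h4
      have hpI : Prime (p : ℤ) := Nat.prime_iff_prime_int.1 hp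
      rcases hpI.dvd_or_dvd h5 with h6 | h6
      · exfalso
        have h7 : p ∣ j := by exact_mod_cast h6
        have := Nat.le_of_dvd (by omega) h7
        omega
      · exact h6
    have hv : (fun i => ((z i : ℤ) : ZMod p)) = 0 := by
      refine Matrix.eq_zero_of_forall_pow_sum_mul_pow_eq_zero
        (f := fun i => ((y i : ℤ) : ZMod p)) ?_ ?_
      · intro i j hij
        by_contra hne
        refine hy i j hne ?_
        have := hij
        simp only at this
        rw [← sub_eq_zero, ← Int.cast_sub] at this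
        exact (ZMod.intCast_zmod_eq_zero_iff_dvd _ _).1 this
      · intro j
        have h1 := hlin (j + 1) (mem_Icc.2 ⟨by omega, by omega⟩)
        have h2 := (ZMod.intCast_zmod_eq_zero_iff_dvd _ _).2 h1
        push_cast at h2
        simpa using h2
    intro i
    have h1 : ((z i : ℤ) : ZMod p) = 0 := congrFun hv i
    obtain ⟨w, hw⟩ := (ZMod.intCast_zmod_eq_zero_iff_dvd _ _).1 h1
    exact ⟨w, by rw [hz i, hw, pow_succ]; ring⟩

theorem hLIN : StLin := by
  intro k p a h hk hp hkp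
  classical
  have hfact : Fact p.Prime := ⟨hp⟩
  have hp0 : (0 : ℤ) < p := by exact_mod_cast hp.pos
  set S : Set (Fin k → ℤ) := {x : Fin k → ℤ | (∀ i, a ≤ x i ∧ x i < a + (p : ℤ) ^ k) ∧
    (∀ i j, i ≠ j → ¬ (p : ℤ) ∣ x i - x j) ∧
    ∀ j ∈ Icc 1 k, (p : ℤ) ^ j ∣ ∑ i, x i ^ j - h j} with hS
  have hfin : S.Finite := by
    refine Set.Finite.subset (Finset.finite_toSet
      (Fintype.piFinset fun _ : Fin k => Ico a (a + (p : ℤ) ^ k))) ?_
    intro x hx
    rw [Finset.mem_coe, Fintype.mem_piFinset]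
    intro i
    exact mem_Ico.2 (hx.1 i)
  rw [Set.ncard_eq_toFinset_card _ hfin]
  set T : Finset (Fin k → ℤ) := hfin.toFinset with hT
  have hTm : ∀ x, x ∈ T ↔ x ∈ S := fun x => hfin.mem_toFinset
  -- the vector of residues
  let f : (Fin k → ℤ) → (Fin k → ℕ) := fun x j =>
    (((∑ i, x i ^ (j.1 + 1) - h (j.1 + 1)) / (p : ℤ) ^ (j.1 + 1)) % (p : ℤ) ^ (k - (j.1 + 1))).toNat
  let R : Finset (Fin k → ℕ) := Fintype.piFinset fun j : Fin k => range (p ^ (k - (j.1 + 1)))
  have hR : R.card = p ^ (k * (k - 1) / 2) := by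
    rw [Fintype.card_piFinset]
    simp only [card_range]
    rw [Finset.prod_pow_eq_pow_sum]
    congr 1
    rw [Fin.sum_univ_eq_sum_range (fun j => k - (j + 1)) k]
    have e : ∑ j ∈ range k, (k - (j + 1)) = ∑ j ∈ range k, j := by
      have := Finset.sum_range_reflect (fun j => j) k
      rw [← this]
      refine Finset.sum_congr rfl fun j _ => ?_
      omega
    rw [e, Finset.sum_range_id]
  have hfR : ∀ x ∈ T, f x ∈ R := by
    intro x _
    rw [Fintype.mem_piFinset]
    intro j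
    rw [mem_range]
    have h1 : (0 : ℤ) < (p : ℤ) ^ (k - (j.1 + 1)) := by positivity
    have h2 := Int.emod_lt_of_pos ((∑ i, x i ^ (j.1 + 1) - h (j.1 + 1)) / (p : ℤ) ^ (j.1 + 1)) h1
    have h3 := Int.emod_nonneg ((∑ i, x i ^ (j.1 + 1) - h (j.1 + 1)) / (p : ℤ) ^ (j.1 + 1)) h1.ne'
    show (_ : ℤ).toNat < _
    rw [← Nat.cast_lt (α := ℤ), Int.toNat_of_nonneg h3]
    push_cast
    exact h2
  have hfib : ∀ c ∈ R, (T.filter fun x => f x = c).card ≤ k.factorial := by
    intro c _
    set U := T.filter fun x => f x = c with hU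
    rcases U.eq_empty_or_nonempty with he | ⟨y, hy⟩
    · rw [he]; simp
    -- congruences modulo `p^k` on the fibre
    have hcong : ∀ x ∈ U, ∀ x' ∈ U, ∀ j ∈ Icc 1 k,
        (p : ℤ) ^ k ∣ ∑ i, x i ^ j - ∑ i, x' i ^ j := by
      intro x hx x' hx' j hj
      obtain ⟨hj1, hjk⟩ := mem_Icc.1 hj
      obtain ⟨hxT, hxc⟩ := mem_filter.1 hx
      obtain ⟨hxT', hxc'⟩ := mem_filter.1 hx'
      obtain ⟨u, hu⟩ := ((hTm x).1 hxT).2.2 j hj
      obtain ⟨u', hu'⟩ := ((hTm x').1 hxT').2.2 j hj
      have hpj : (p : ℤ) ^ j ≠ 0 := pow_ne_zero _ hp0.ne'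
      have e1 := congrFun (hxc.trans hxc'.symm) ⟨j - 1, by omega⟩
      have e2 : j - 1 + 1 = j := by omega
      simp only [f, e2] at e1
      rw [hu, hu', Int.mul_ediv_cancel_left _ hpj, Int.mul_ediv_cancel_left _ hpj] at e1
      have h1 : (0 : ℤ) < (p : ℤ) ^ (k - j) := by positivity
      have e3 : u % (p : ℤ) ^ (k - j) = u' % (p : ℤ) ^ (k - j) := by
        rw [← Int.toNat_of_nonneg (Int.emod_nonneg u h1.ne'),
          ← Int.toNat_of_nonneg (Int.emod_nonneg u' h1.ne'), e1]
      have e4 : (p : ℤ) ^ (k - j) ∣ u - u' := (Int.emod_emod_of_dvd _ dvd_rfl ▸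
        Int.emod_eq_emod_iff_emod_sub_eq_zero.1 e3 |> Int.dvd_of_emod_eq_zero)
      have e5 : ∑ i, x i ^ j - ∑ i, x' i ^ j = (p : ℤ) ^ j * (u - u') := by
        linear_combination hu - hu'
      rw [e5]
      have e6 : (p : ℤ) ^ k = (p : ℤ) ^ j * (p : ℤ) ^ (k - j) := by
        rw [← pow_add]
        congr 1
        omega
      rw [e6]
      exact mul_dvd_mul_left _ e4
    have hcast : ∀ j ∈ Icc 1 k, ((j : ℕ) : ZMod p) ≠ 0 := by
      intro j hj h0
      obtain ⟨hj1, hjk⟩ := mem_Icc.1 hj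
      rw [ZMod.natCast_eq_zero_iff] at h0
      have := Nat.le_of_dvd (by omega) h0
      omega
    have hinc : ∀ x ∈ U, ∀ i j, i ≠ j → ¬ (p : ℤ) ∣ x i - x j := fun x hx =>
      ((hTm x).1 (mem_filter.1 hx).1).2.1
    -- every tuple of the fibre is a rearrangement of `y` modulo `p`
    have hperm : ∀ x ∈ U, ∀ i, ∃ i', (p : ℤ) ∣ x i - y i' := by
      intro x hx i
      have hm := multiset_eq hcast (fun i => ((x i : ℤ) : ZMod p)) (fun i => ((y i : ℤ) : ZMod p))
        (by
          intro j hj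
          have h1 := hcong x hx y hy j hj
          have h2 : (p : ℤ) ∣ ∑ i, x i ^ j - ∑ i, y i ^ j := (dvd_pow_self _ (by omega)).trans h1
          have h3 := (ZMod.intCast_zmod_eq_zero_iff_dvd _ _).2 h2
          push_cast at h3
          exact sub_eq_zero.1 h3)
      have h1 : ((x i : ℤ) : ZMod p) ∈
          (univ : Finset (Fin k)).val.map (fun i => ((x i : ℤ) : ZMod p)) :=
        Multiset.mem_map.2 ⟨i, mem_univ i, rfl⟩
      rw [hm] at h1
      obtain ⟨i', _, hi'⟩ := Multiset.mem_map.1 h1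
      refine ⟨i', ?_⟩
      have h2 : (((x i - y i' : ℤ)) : ZMod p) = 0 := by
        push_cast
        rw [hi', sub_self]
      exact (ZMod.intCast_zmod_eq_zero_iff_dvd _ _).1 h2
    choose! g hg using hperm
    have hgi : ∀ x ∈ U, Function.Injective (g x) := by
      intro x hx i j hij
      by_contra hne
      refine hinc x hx i j hne ?_
      have h1 := hg x hx i
      have h2 := hg x hx j
      rw [hij] at h1
      have := dvd_sub h1 h2
      simpa using this
    let G : U → (Fin k ↪ Fin k) := fun x => ⟨g x.1, hgi x.1 x.2⟩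
    have hG : Function.Injective G := by
      intro x x' hxx
      have h0 : g x.1 = g x'.1 := congrArg (fun e : Fin k ↪ Fin k => (e : Fin k → Fin k)) hxx
      have h1 : ∀ i, (p : ℤ) ∣ x.1 i - x'.1 i := by
        intro i
        have h2 := hg x.1 x.2 i
        have h3 := hg x'.1 x'.2 i
        rw [← h0] at h3
        have := dvd_sub h2 h3
        simpa using this
      have h4 := lift hp hkp x.1 x'.1 (hinc x'.1 x'.2) h1 (hcong x.1 x.2 x'.1 x'.2) k hk le_rfl
      refine Subtype.ext (funext fun i => ?_)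
      have h5 := ((hTm x.1).1 (mem_filter.1 x.2).1).1 i
      have h6 := ((hTm x'.1).1 (mem_filter.1 x'.2).1).1 i
      have h7 := Int.eq_zero_of_abs_lt_dvd (h4 i) (by
        rw [abs_lt]
        constructor <;> linarith [h5.1, h5.2, h6.1, h6.2])
      linarith
    have h8 := Fintype.card_le_of_injective G hG
    rw [Fintype.card_coe, Fintype.card_embedding_eq, Fintype.card_fin, Nat.descFactorial_self] at h8
    exact h8
  calc T.card ≤ k.factorial * R.card := by
        have := Finset.card_le_mul_card_image_of_maps_to hfR k.factorial hfib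
        exact this
    _ = k.factorial * p ^ (k * (k - 1) / 2) := by rw [hR]

end Pool.Agent.Helper64.GK
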