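import Pool.Agent.Helper64.GK.Parts

/-!
# Project GK, module SU1: Möbius blocks
-/

set_option autoImplicit false

namespace Pool.Agent.Helper64.GK

open Pool.Agent.Helper23.GK
open Finset
open Pool.Agent.Helper2.MR (ch)

theorem hSU1 : StMob → StSu1 := by
  intro hM A B
  obtain ⟨B1, X0, h⟩ := hM (A + 2) B
  refine ⟨B1, max X0 (2 ^ 30), fun X hX q _ χ e τ hq hX1 hX2 hτ1 hτ2 => ?_⟩
  have hX0 : X0 ≤ X := (le_max_left _ _).trans hX
  have hX30 : 2 ^ 30 ≤ X := (le_max_right _ _).trans hX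
  have hX30' : (2 : ℝ) ^ 30 ≤ X := by exact_mod_cast hX30
  have hXpos : (0 : ℝ) < X := by linarith [show (0 : ℝ) < 2 ^ 30 by norm_num]
  have hXone : (1 : ℝ) ≤ X := by linarith [show (1 : ℝ) ≤ 2 ^ 30 by norm_num]
  have hL : (2 : ℝ) ≤ Real.log X := by
    have h1 : Real.log ((2 : ℝ) ^ 30) ≤ Real.log X := Real.log_le_log (by positivity) hX30'
    rw [Real.log_pow] at h1
    have := Real.log_two_gt_d9
    push_cast at h1
    linarith
  have hX5 : (X : ℝ) ^ (1 / 6 : ℝ) * 2 ≤ (X : ℝ) ^ (1 / 5 : ℝ) := by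
    have e1 : (X : ℝ) ^ (1 / 5 : ℝ) = (X : ℝ) ^ (1 / 6 : ℝ) * (X : ℝ) ^ (1 / 30 : ℝ) := by
      rw [← Real.rpow_add hXpos]
      norm_num
    rw [e1]
    refine mul_le_mul_of_nonneg_left ?_ (by positivity)
    have e2 : (2 : ℝ) = ((2 : ℝ) ^ 30) ^ (1 / 30 : ℝ) := by
      rw [← Real.rpow_natCast, ← Real.rpow_mul (by norm_num)]
      norm_num
    rw [e2]
    exact Real.rpow_le_rpow (by positivity) hX30' (by norm_num)
  have he : 1 ≤ e := by
    by_contra h0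
    have h1 : e = 0 := by omega
    subst h1
    rw [pow_zero] at hX1
    have h2 : (1 : ℝ) ≤ (X : ℝ) ^ (1 / 6 : ℝ) := Real.one_le_rpow hXone (by norm_num)
    linarith
  set N : ℕ := 2 ^ (e - 1) with hN
  have hN1 : 1 ≤ N := Nat.one_le_two_pow
  have h2N : 2 ^ e = 2 * N := by
    rw [hN, ← pow_succ']
    congr 1
    omega
  have h2N' : (2 : ℝ) ^ e = 2 * N := by exact_mod_cast h2N
  have hb : blk2 e = Ioc N (2 * N) := by
    unfold blk2
    rw [if_neg (by omega), h2N]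
  have hN0 : (0 : ℝ) < N := by exact_mod_cast hN1
  have hNlow : (X : ℝ) ^ (1 / 6 : ℝ) ≤ N := by
    rw [h2N'] at hX1
    linarith
  have hτ3 : |τ| ≤ (X : ℝ) ^ 2 := by nlinarith
  set δ : ℝ := 1 / Real.log X ^ (A + 2) with hδ
  have hδ0 : 0 < δ := by positivity
  have hT : ∀ n, N ≤ n → n ≤ 2 * N → ‖∑ m ∈ Ioc 0 n, cmu χ m * ch τ m‖ ≤ 2 * N * δ := by
    intro n h1 h2
    have h1' : (N : ℝ) ≤ n := by exact_mod_cast h1
    have h2' : (n : ℝ) ≤ 2 * N := by exact_mod_cast h2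
    refine (h X hX0 q χ n τ hq (hNlow.trans h1') ?_ hτ1 hτ3).trans ?_
    · rw [← h2N] at h2
      exact h2.trans (by exact_mod_cast hX2)
    · rw [div_eq_mul_one_div]
      exact mul_le_mul_of_nonneg_right h2' hδ0.le
  have hS : ∀ n, N ≤ n → n ≤ 2 * N → ‖∑ m ∈ Ioc N n, cmu χ m * ch τ m‖ ≤ 4 * N * δ := by
    intro n h1 h2
    have h3 := Finset.sum_Ioc_consecutive (fun m => cmu χ m * ch τ m) (Nat.zero_le N) h1
    have h4 : ∑ m ∈ Ioc N n, cmu χ m * ch τ m =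
        ∑ m ∈ Ioc 0 n, cmu χ m * ch τ m - ∑ m ∈ Ioc 0 N, cmu χ m * ch τ m := by
      rw [← h3]
      ring
    rw [h4]
    refine (norm_sub_le _ _).trans ?_
    have h5 := hT n h1 h2
    have h6 := hT N le_rfl (by omega)
    linarith
  have h1 := abel_inv (fun n => cmu χ n * ch τ n) N (2 * N) (4 * N * δ) (by positivity) hS hN1
  have h2 : AA (cmu χ) e τ = ∑ n ∈ Ioc N (2 * N), cmu χ n * ch τ n / (n : ℂ) := by
    unfold AA
    rw [hb]
  rw [h2]
  refine h1.trans ?_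
  have h3 : 4 * N * δ / N = 4 * δ := by field_simp
  rw [h3, hδ, pow_add, mul_one_div, div_le_div_iff₀ (by positivity) (by positivity)]
  have h4 : (4 : ℝ) ≤ Real.log X ^ 2 := by nlinarith
  have h5 : 0 < Real.log X ^ A := by positivity
  nlinarith

end Pool.Agent.Helper64.GK
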