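import Pool.Agent.Helper64.GK.Parts

/-!
# Project GK, module SU3: smooth blocks, long
-/

set_option autoImplicit false

namespace Pool.Agent.Helper64.GK

open Pool.Agent.Helper23.GK
open Finset
open Pool.Agent.Helper2.MR (ch)

private theorem norm_ch (t : ℝ) (n : ℕ) : ‖ch t n‖ = 1 := by
  unfold ch
  rw [Complex.norm_exp_ofReal_mul_I]

theorem hSU3 : StEs3 → StSu3 := by
  rintro ⟨C, hC, hE⟩
  refine ⟨4 * C + 1, by positivity, fun q _ χ e τ hτ => ?_⟩
  have hq1 : (1 : ℝ) ≤ q := by exact_mod_cast Nat.pos_of_ne_zero (NeZero.ne q)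
  have hτ0 : 0 < |τ| := by linarith
  rcases Nat.eq_zero_or_pos e with he | he
  · subst he
    have hb : blk2 0 = {1} := by simp [blk2]
    have hr : (1 : ℝ) ≤ 1 / |τ| + |τ| / 2 ^ 0 := by
      rw [pow_zero, div_one]
      have : 0 ≤ 1 / |τ| := by positivity
      linarith
    constructor
    · unfold AA
      rw [hb, Finset.sum_singleton]
      simp only [cone, Nat.cast_one, map_one, one_mul, div_one]
      rw [norm_ch]
      have h1 : (1 : ℝ) ≤ (4 * C + 1) * q := by nlinarith
      calc (1 : ℝ) = 1 * 1 := by ring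
        _ ≤ (4 * C + 1) * q * (1 / |τ| + |τ| / 2 ^ 0) := mul_le_mul h1 hr (by norm_num) (by positivity)
    · unfold AA
      rw [hb, Finset.sum_singleton]
      simp only [clog, Nat.cast_one, Real.log_one, Complex.ofReal_zero, mul_zero, zero_mul, zero_div,
        norm_zero]
      positivity
  · set N : ℕ := 2 ^ (e - 1) with hN
    have hN1 : 1 ≤ N := Nat.one_le_two_pow
    have h2N : 2 ^ e = 2 * N := by
      rw [hN, ← pow_succ']
      congr 1
      omega
    have h2N' : (2 : ℝ) ^ e = 2 * N := by exact_mod_cast h2N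
    have hb : blk2 e = Ioc N (2 * N) := by
      unfold blk2
      rw [if_neg (by omega), h2N]
    have hN0 : (0 : ℝ) < N := by exact_mod_cast hN1
    set D : ℝ := q * (C * (N / |τ| + |τ|)) with hD
    have hD0 : 0 ≤ D := by positivity
    have hS : ∀ n, N ≤ n → n ≤ 2 * N → ‖∑ m ∈ Ioc N n, χ (m : ZMod q) * ch τ m‖ ≤ D := by
      intro n h1 h2
      exact res_split χ (Ioc N n) (ch τ) _ fun u =>
        hE N n q u τ h1 h2 (Nat.pos_of_ne_zero (NeZero.ne q)) hτ
    have hr : D / N ≤ 2 * C * q * (1 / |τ| + |τ| / 2 ^ e) := by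
      rw [div_le_iff₀ hN0, hD, h2N']
      have e1 : 2 * C * q * (1 / |τ| + |τ| / (2 * N)) * N = C * q * (2 * (N / |τ|) + |τ|) := by
        field_simp
      rw [e1]
      have e2 : q * (C * (N / |τ| + |τ|)) = C * q * (N / |τ| + |τ|) := by ring
      rw [e2]
      refine mul_le_mul_of_nonneg_left ?_ (by positivity)
      have : 0 ≤ N / |τ| := by positivity
      linarith
    have hr0 : 0 ≤ 1 / |τ| + |τ| / 2 ^ e := by positivity
    constructor
    · have h1 := abel_inv (fun n => χ (n : ZMod q) * ch τ n) N (2 * N) D hD0 hS hN1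
      have h2 : AA (cone χ) e τ = ∑ n ∈ Ioc N (2 * N), χ (n : ZMod q) * ch τ n / (n : ℂ) := by
        unfold AA
        rw [hb]
        rfl
      rw [h2]
      refine h1.trans (hr.trans ?_)
      refine mul_le_mul_of_nonneg_right ?_ hr0
      nlinarith
    · have h1 := abel_log_inv (fun n => χ (n : ZMod q) * ch τ n) N (2 * N) D hD0 hS hN1
      have h2 : AA (clog χ) e τ = ∑ n ∈ Ioc N (2 * N),
          χ (n : ZMod q) * ch τ n * ((Real.log n : ℝ) : ℂ) / (n : ℂ) := by
        unfold AA
        rw [hb]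
        refine Finset.sum_congr rfl fun n _ => ?_
        unfold clog
        ring
      rw [h2]
      refine h1.trans ?_
      have h3 : Real.log ((2 * N : ℕ) : ℝ) ≤ 1 + e := by
        rw [← h2N]
        push_cast
        rw [Real.log_pow]
        have := Real.log_two_lt_d9
        have he' : (0 : ℝ) ≤ e := by positivity
        nlinarith
      have h4 : 0 ≤ Real.log ((2 * N : ℕ) : ℝ) := Real.log_nonneg (by
        have : 1 ≤ 2 * N := by omega
        exact_mod_cast this)
      have h5 : 2 * D * Real.log ((2 * N : ℕ) : ℝ) / N = 2 * Real.log ((2 * N : ℕ) : ℝ) * (D / N) := by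
        ring
      rw [h5]
      calc 2 * Real.log ((2 * N : ℕ) : ℝ) * (D / N) ≤ 2 * (1 + e) *
            (2 * C * q * (1 / |τ| + |τ| / 2 ^ e)) :=
            mul_le_mul (by linarith) hr (by positivity) (by positivity)
        _ = (4 * C) * q * (1 + e) * (1 / |τ| + |τ| / 2 ^ e) := by ring
        _ ≤ (4 * C + 1) * q * (1 + e) * (1 / |τ| + |τ| / 2 ^ e) := by
            have : 0 ≤ q * (1 + (e : ℝ)) * (1 / |τ| + |τ| / 2 ^ e) := by positivity
            nlinarith

end Pool.Agent.Helper64.GK
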