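import Pool.Agent.Helper23.GK.StB

/-!
# Project GK, module TAY: Taylor expansion of `(1+z)^{-it}`
-/

set_option autoImplicit false

namespace Pool.Agent.Helper64.GK

open Pool.Agent.Helper23.GK
open Finset

private theorem norm_exp_sub (a b : ℝ) :
    ‖Complex.exp ((a : ℂ) * Complex.I) - Complex.exp ((b : ℂ) * Complex.I)‖ ≤ |a - b| := by
  have h1 : Complex.exp ((a : ℂ) * Complex.I) - Complex.exp ((b : ℂ) * Complex.I) =
      Complex.exp ((b : ℂ) * Complex.I) * (Complex.exp (Complex.I * ((a - b : ℝ) : ℂ)) - 1) := by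
    rw [mul_sub, mul_one, ← Complex.exp_add]
    congr 2
    push_cast
    ring
  rw [h1, norm_mul, Complex.norm_exp_ofReal_mul_I, one_mul]
  exact Real.norm_exp_I_mul_ofReal_sub_one_le

private theorem log_taylor (k : ℕ) (z : ℝ) (hz0 : 0 ≤ z) :
    |Real.log (1 + z) + ∑ j ∈ Icc 1 k, (-1 : ℝ) ^ j * z ^ j / j| ≤ z ^ (k + 1) := by
  have hd : ∀ x ∈ Set.Icc (0 : ℝ) z, HasDerivWithinAt
      (fun x : ℝ => Real.log (1 + x) + ∑ j ∈ Icc 1 k, (-1 : ℝ) ^ j * x ^ j / j)
      ((-x) ^ k / (1 + x)) (Set.Icc (0 : ℝ) z) x := by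
    intro x hx
    have hx1 : (0 : ℝ) < 1 + x := by linarith [hx.1]
    have h1 : HasDerivAt (fun x : ℝ => Real.log (1 + x)) (1 / (1 + x)) x := by
      exact ((hasDerivAt_id x).const_add 1).log hx1.ne'
    have h2 : HasDerivAt (fun x : ℝ => ∑ j ∈ Icc 1 k, (-1 : ℝ) ^ j * x ^ j / j)
        (∑ j ∈ Icc 1 k, (-1 : ℝ) ^ j * x ^ (j - 1)) x := by
      refine HasDerivAt.fun_sum fun j hj => ?_
      have hj1 : (j : ℝ) ≠ 0 := by
        have := (mem_Icc.1 hj).1
        positivity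
      have h3 := (((hasDerivAt_pow j x).const_mul ((-1 : ℝ) ^ j))).div_const (j : ℝ)
      have h4 : (-1 : ℝ) ^ j * ((j : ℝ) * x ^ (j - 1)) / j = (-1 : ℝ) ^ j * x ^ (j - 1) := by
        rw [mul_left_comm, mul_div_assoc, mul_div_cancel₀]
        exact hj1
      rw [h4] at h3
      exact h3
    have h3 : 1 / (1 + x) + ∑ j ∈ Icc 1 k, (-1 : ℝ) ^ j * x ^ (j - 1) = (-x) ^ k / (1 + x) := by
      have h4 : ∑ j ∈ Icc 1 k, (-1 : ℝ) ^ j * x ^ (j - 1) = ∑ j ∈ range k, -(-x) ^ j := by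
        refine Finset.sum_nbij' (fun j => j - 1) (fun j => j + 1) ?_ ?_ ?_ ?_ ?_
        · intro j hj
          have := mem_Icc.1 hj
          exact mem_range.2 (by omega)
        · intro j hj
          have := mem_range.1 hj
          exact mem_Icc.2 ⟨by omega, by omega⟩
        · intro j hj
          have := mem_Icc.1 hj
          show j - 1 + 1 = j
          omega
        · intro j _
          rfl
        · intro j hj
          have h6 := (mem_Icc.1 hj).1
          obtain ⟨i, rfl⟩ : ∃ i, j = i + 1 := ⟨j - 1, by omega⟩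
          rw [Nat.add_sub_cancel, neg_pow x i, pow_succ]
          ring
      have h5 : (∑ j ∈ range k, (-x) ^ j) * ((-x) - 1) = (-x) ^ k - 1 := geom_sum_mul (-x) k
      rw [h4, Finset.sum_neg_distrib, eq_div_iff hx1.ne', add_mul, one_div,
        inv_mul_cancel₀ hx1.ne']
      linear_combination h5
    rw [← h3]
    exact (h1.add h2).hasDerivWithinAt
  have h := Convex.norm_image_sub_le_of_norm_hasDerivWithin_le (C := z ^ k) hd (fun x hx => by
    have hx1 : (0 : ℝ) < 1 + x := by linarith [hx.1]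
    rw [norm_div, norm_pow, norm_neg, Real.norm_eq_abs, Real.norm_eq_abs, abs_of_nonneg hx.1,
      abs_of_pos hx1, div_le_iff₀ hx1]
    have h1 : x ^ k ≤ z ^ k := pow_le_pow_left₀ hx.1 hx.2 k
    have h2 : (0 : ℝ) ≤ z ^ k := by positivity
    nlinarith [hx.1]) (convex_Icc 0 z) (Set.left_mem_Icc.2 hz0) (Set.right_mem_Icc.2 hz0)
  have h0 : ∑ j ∈ Icc 1 k, (-1 : ℝ) ^ j * (0 : ℝ) ^ j / j = 0 := by
    refine Finset.sum_eq_zero fun j hj => ?_
    have := (mem_Icc.1 hj).1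
    rw [zero_pow (by omega)]
    simp
  simp only [add_zero, Real.log_one, h0, sub_zero, Real.norm_eq_abs, abs_of_nonneg hz0] at h
  rw [pow_succ]
  exact h

theorem hTAY : StTay := by
  intro k t z hz0 _
  refine (norm_exp_sub _ _).trans ?_
  have h1 : -(t * Real.log (1 + z)) - ∑ j ∈ Icc 1 k, (-1 : ℝ) ^ j * t * z ^ j / j =
      -t * (Real.log (1 + z) + ∑ j ∈ Icc 1 k, (-1 : ℝ) ^ j * z ^ j / j) := by
    rw [mul_add, Finset.mul_sum]
    have : ∑ j ∈ Icc 1 k, (-1 : ℝ) ^ j * t * z ^ j / j =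
        ∑ j ∈ Icc 1 k, t * ((-1 : ℝ) ^ j * z ^ j / j) :=
      Finset.sum_congr rfl fun j _ => by ring
    rw [this, ← Finset.mul_sum, ← Finset.mul_sum]
    ring
  rw [h1, abs_mul, abs_neg]
  exact mul_le_mul_of_nonneg_left (log_taylor k z hz0) (abs_nonneg _)

end Pool.Agent.Helper64.GK
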