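import Pool.Agent.Helper23.GK.StB

/-!
# Project GK, module WSU: linear sums
-/

set_option autoImplicit false

namespace Pool.Agent.Helper64.GK

open Pool.Agent.Helper23.GK
open Finset
open Pool.Agent.Helper48.BK (ex)

private theorem norm_ex (t : ℝ) : ‖ex t‖ = 1 := by
  have h : ex t = Complex.exp (((2 * Real.pi * t : ℝ) : ℂ) * Complex.I) := by
    unfold ex
    push_cast
    ring_nf
  rw [h, Complex.norm_exp_ofReal_mul_I]

private theorem ex_add' (s t : ℝ) : ex (s + t) = ex s * ex t := by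
  unfold ex
  rw [← Complex.exp_add]
  congr 1
  push_cast
  ring

private theorem norm_ex_sub_one (t : ℝ) (ht : |t| ≤ 1 / 2) : 4 * |t| ≤ ‖ex t - 1‖ := by
  have h : ex t = Complex.exp (Complex.I * ((2 * Real.pi * t : ℝ) : ℂ)) := by
    unfold ex
    push_cast
    ring_nf
  rw [h, Complex.norm_exp_I_mul_ofReal_sub_one, norm_mul, Real.norm_eq_abs, Real.norm_eq_abs,
    abs_of_pos (by norm_num : (0 : ℝ) < 2), show 2 * Real.pi * t / 2 = Real.pi * t by ring]
  have hpi := Real.pi_pos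
  have h1 : |Real.sin (Real.pi * t)| = Real.sin (Real.pi * |t|) := by
    rcases le_total 0 t with h0 | h0
    · rw [abs_of_nonneg h0]
      refine abs_of_nonneg (Real.sin_nonneg_of_nonneg_of_le_pi (by positivity) ?_)
      rw [abs_of_nonneg h0] at ht
      nlinarith
    · rw [abs_of_nonpos h0, mul_neg, Real.sin_neg]
      refine abs_of_nonpos ?_
      rw [abs_of_nonpos h0] at ht
      have h2 : 0 ≤ Real.sin (-(Real.pi * t)) :=
        Real.sin_nonneg_of_nonneg_of_le_pi (by nlinarith) (by nlinarith)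
      rw [Real.sin_neg] at h2
      linarith
  rw [h1]
  have h3 := Real.mul_le_sin (x := Real.pi * |t|) (by positivity) (by nlinarith)
  have h4 : 2 / Real.pi * (Real.pi * |t|) = 2 * |t| := by field_simp
  rw [h4] at h3
  linarith

/-- symmetric sums -/
private theorem sum_sym {M : Type} [AddCommMonoid M] (f : ℤ → M) (n : ℕ) :
    ∑ v ∈ Icc (-(n : ℤ)) n, f v = f 0 + ∑ u ∈ Icc 1 n, (f u + f (-(u : ℤ))) := by
  induction n with
  | zero => simp
  | succ n ih =>
    rw [Finset.sum_Icc_succ_top (by omega), ← add_assoc, ← ih]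
    have h1 : Icc (-((n + 1 : ℕ) : ℤ)) ((n + 1 : ℕ) : ℤ) =
        insert (((n + 1 : ℕ) : ℤ)) (insert (-((n + 1 : ℕ) : ℤ)) (Icc (-(n : ℤ)) n)) := by
      ext v
      simp only [mem_Icc, mem_insert]
      push_cast
      omega
    rw [h1, Finset.sum_insert, Finset.sum_insert]
    · abel
    · simp only [mem_Icc]
      push_cast
      omega
    · simp only [mem_Icc, mem_insert]
      push_cast
      omega

private theorem geo_bound (θ : ℝ) (U : ℕ) (h0 : 0 < |θ|) (h1 : |θ| ≤ 1 / 2) :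
    ‖∑ v ∈ Icc (-(U : ℤ)) U, ex (θ * v)‖ ≤ 1 / (2 * |θ|) := by
  have hne : ex θ - 1 ≠ 0 := by
    intro h
    have := norm_ex_sub_one θ h1
    rw [h, norm_zero] at this
    linarith
  have hsum : ∀ U : ℕ, (ex θ - 1) * ∑ v ∈ Icc (-(U : ℤ)) U, ex (θ * v) =
      ex (θ * (U + 1)) - ex (-(θ * U)) := by
    intro U
    rw [sum_sym]
    induction U with
    | zero => simp [ex]
    | succ n ih =>
      rw [Finset.sum_Icc_succ_top (by omega), ← add_assoc, mul_add, ih]
      have e1 : ex (θ * (n + 1)) = ex (θ * ((n + 1 : ℕ) : ℤ)) := by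
        congr 1
        push_cast
        ring
      have e2 : ex (θ * (((n + 1 : ℕ) : ℝ) + 1)) = ex (θ * ((n + 1 : ℕ) : ℤ)) * ex θ := by
        rw [← ex_add']
        congr 1
        push_cast
        ring
      have e3 : ex (-(θ * n)) = ex (θ * ((-(((n + 1 : ℕ) : ℤ)) : ℤ) : ℝ)) * ex θ := by
        rw [← ex_add']
        congr 1
        push_cast
        ring
      have e4 : ex (-(θ * ((n + 1 : ℕ) : ℝ))) = ex (θ * ((-(((n + 1 : ℕ) : ℤ)) : ℤ) : ℝ)) := by
        congr 1
        push_cast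
        ring
      rw [e1, e2, e3, e4]
      ring
  have h2 := congrArg norm (hsum U)
  rw [norm_mul] at h2
  have h3 : ‖ex (θ * (U + 1)) - ex (-(θ * U))‖ ≤ 2 := by
    refine (norm_sub_le _ _).trans ?_
    rw [norm_ex, norm_ex]
    norm_num
  have h4 := norm_ex_sub_one θ h1
  rw [le_div_iff₀ (by positivity)]
  have h5 : 0 ≤ ‖∑ v ∈ Icc (-(U : ℤ)) U, ex (θ * v)‖ := norm_nonneg _
  nlinarith

theorem hWSU : StWsu := by
  constructor
  · intro a U
    unfold WU
    have h1 : ∀ u ∈ Icc (-(U : ℤ)) U, ‖∑ v ∈ Icc (-(U : ℤ)) U, ex (a * u * v)‖ ≤ 2 * U + 1 := by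
      intro u _
      refine (norm_sum_le _ _).trans ?_
      rw [Finset.sum_congr rfl fun (v : ℤ) _ => norm_ex (a * u * v), Finset.sum_const, Int.card_Icc,
        nsmul_eq_mul, mul_one]
      have : ((U : ℤ) + 1 - -(U : ℤ)).toNat = 2 * U + 1 := by omega
      rw [this]
      push_cast
      exact le_rfl
    refine (Finset.sum_le_sum h1).trans ?_
    rw [Finset.sum_const, Int.card_Icc, nsmul_eq_mul]
    have : ((U : ℤ) + 1 - -(U : ℤ)).toNat = 2 * U + 1 := by omega
    rw [this]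
    push_cast
    rw [pow_two]
  · intro a U hU ha haU
    unfold WU
    rw [sum_sym]
    have h0 : ‖∑ v ∈ Icc (-(U : ℤ)) U, ex (a * ((0 : ℤ) : ℝ) * v)‖ ≤ 3 * U := by
      refine (norm_sum_le _ _).trans ?_
      rw [Finset.sum_congr rfl fun (v : ℤ) _ => norm_ex (a * ((0 : ℤ) : ℝ) * v), Finset.sum_const,
        Int.card_Icc, nsmul_eq_mul, mul_one]
      have : ((U : ℤ) + 1 - -(U : ℤ)).toNat = 2 * U + 1 := by omega
      rw [this]
      have hU' : (1 : ℝ) ≤ U := by exact_mod_cast hU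
      push_cast
      linarith
    refine add_le_add h0 ?_
    have h1 : ∀ u ∈ Icc 1 U, ‖∑ v ∈ Icc (-(U : ℤ)) U, ex (a * (((u : ℕ) : ℤ) : ℝ) * v)‖ +
        ‖∑ v ∈ Icc (-(U : ℤ)) U, ex (a * ((-((u : ℕ) : ℤ) : ℤ) : ℝ) * v)‖ ≤
        1 / |a| * ((u : ℝ))⁻¹ := by
      intro u hu
      obtain ⟨hu1, hu2⟩ := mem_Icc.1 hu
      have hu1' : (1 : ℝ) ≤ u := by exact_mod_cast hu1
      have hu2' : (u : ℝ) ≤ U := by exact_mod_cast hu2
      have hb : |a| * u ≤ 1 / 2 := le_trans (mul_le_mul_of_nonneg_left hu2' (abs_nonneg _)) haU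
      have e1 := geo_bound (a * (((u : ℕ) : ℤ) : ℝ)) U
        (by push_cast; rw [abs_mul, abs_of_pos (by linarith : (0 : ℝ) < u)]; positivity)
        (by push_cast; rw [abs_mul, abs_of_pos (by linarith : (0 : ℝ) < u)]; exact hb)
      have e2 := geo_bound (a * ((-((u : ℕ) : ℤ) : ℤ) : ℝ)) U
        (by push_cast; rw [abs_mul, abs_neg, abs_of_pos (by linarith : (0 : ℝ) < u)]; positivity)
        (by push_cast; rw [abs_mul, abs_neg, abs_of_pos (by linarith : (0 : ℝ) < u)]; exact hb)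
      have e3 : |a * (((u : ℕ) : ℤ) : ℝ)| = |a| * u := by
        push_cast
        rw [abs_mul, abs_of_pos (by linarith : (0 : ℝ) < u)]
      have e4 : |a * ((-((u : ℕ) : ℤ) : ℤ) : ℝ)| = |a| * u := by
        push_cast
        rw [abs_mul, abs_neg, abs_of_pos (by linarith : (0 : ℝ) < u)]
      rw [e3] at e1
      rw [e4] at e2
      refine (add_le_add e1 e2).trans (le_of_eq ?_)
      have : (u : ℝ) ≠ 0 := by linarith
      field_simp
      norm_num
    refine (Finset.sum_le_sum h1).trans ?_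
    rw [← Finset.mul_sum, div_mul_eq_mul_div, one_mul]
    refine div_le_div_of_nonneg_right ?_ ha.le
    have h2 := harmonic_le_one_add_log U
    rw [harmonic_eq_sum_Icc] at h2
    push_cast at h2
    exact h2

end Pool.Agent.Helper64.GK
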