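import Pool.Agent.Helper23.GK.StF

/-!
# Project GK: partial summation and residue classes (helper file for SU1, SU3)
-/

set_option autoImplicit false

namespace Pool.Agent.Helper64.GK

open Pool.Agent.Helper23.GK
open Finset
open Pool.Agent.Helper2.MR (ch)

/-- Abel summation. -/
theorem abel_id (c : ℕ → ℂ) (g : ℕ → ℝ) (M N : ℕ) (h : M ≤ N) :
    ∑ n ∈ Ioc M N, c n * (g n : ℂ) = (∑ n ∈ Ioc M N, c n) * (g N : ℂ) -
      ∑ n ∈ Ico M N, (∑ m ∈ Ioc M n, c m) * ((g (n + 1) - g n : ℝ) : ℂ) := by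
  induction N, h using Nat.le_induction with
  | base => simp
  | succ N hN ih =>
    rw [Finset.sum_Ioc_succ_top hN, Finset.sum_Ioc_succ_top hN, Finset.sum_Ico_succ_top hN, ih]
    push_cast
    ring

/-- Abel summation with a nonincreasing nonnegative weight. -/
theorem abel_anti (c : ℕ → ℂ) (g : ℕ → ℝ) (M N : ℕ) (D : ℝ) (hD : 0 ≤ D)
    (hS : ∀ n, M ≤ n → n ≤ N → ‖∑ m ∈ Ioc M n, c m‖ ≤ D)
    (hg : ∀ n, M + 1 ≤ n → g (n + 1) ≤ g n) (hg0 : ∀ n, M + 1 ≤ n → 0 ≤ g n) :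
    ‖∑ n ∈ Ioc M N, c n * (g n : ℂ)‖ ≤ D * g (M + 1) := by
  rcases Nat.lt_or_ge M N with h | h
  · rw [abel_id c g M N h.le, Finset.sum_eq_sum_Ico_succ_bot h]
    simp only [Finset.Ioc_self, Finset.sum_empty, zero_mul, zero_add]
    refine (norm_sub_le _ _).trans ?_
    have h1 : ‖(∑ n ∈ Ioc M N, c n) * (g N : ℂ)‖ ≤ D * g N := by
      rw [norm_mul, Complex.norm_real, Real.norm_eq_abs, abs_of_nonneg (hg0 N h)]
      exact mul_le_mul_of_nonneg_right (hS N h.le le_rfl) (hg0 N h)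
    have h2 : ‖∑ n ∈ Ico (M + 1) N, (∑ m ∈ Ioc M n, c m) * ((g (n + 1) - g n : ℝ) : ℂ)‖ ≤
        D * (g (M + 1) - g N) := by
      have h3 : ∑ n ∈ Ico (M + 1) N, D * (g n - g (n + 1)) = D * (g (M + 1) - g N) := by
        rw [← Finset.mul_sum]
        congr 1
        have := Finset.sum_Ico_sub g h
        have h4 : ∑ n ∈ Ico (M + 1) N, (g n - g (n + 1)) =
            -∑ n ∈ Ico (M + 1) N, (g (n + 1) - g n) := by
          rw [← Finset.sum_neg_distrib]
          exact Finset.sum_congr rfl fun n _ => by ring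
        rw [h4, this]
        ring
      rw [← h3]
      refine (norm_sum_le _ _).trans (Finset.sum_le_sum fun n hn => ?_)
      obtain ⟨hn1, hn2⟩ := mem_Ico.1 hn
      have h5 := hg n hn1
      rw [norm_mul, Complex.norm_real, Real.norm_eq_abs, abs_of_nonpos (by linarith)]
      have h6 := hS n (by omega) hn2.le
      have h7 : -(g (n + 1) - g n) = g n - g (n + 1) := by ring
      rw [h7]
      exact mul_le_mul_of_nonneg_right h6 (by linarith)
    linarith
  · rw [Finset.Ioc_eq_empty_of_le h, Finset.sum_empty, norm_zero]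
    exact mul_nonneg hD (hg0 _ le_rfl)

/-- Abel summation with a nondecreasing nonnegative weight. -/
theorem abel_mono (c : ℕ → ℂ) (g : ℕ → ℝ) (M N : ℕ) (D : ℝ) (hD : 0 ≤ D)
    (hS : ∀ n, M ≤ n → n ≤ N → ‖∑ m ∈ Ioc M n, c m‖ ≤ D)
    (hg : ∀ n, M + 1 ≤ n → g n ≤ g (n + 1)) (hg0 : ∀ n, M + 1 ≤ n → 0 ≤ g n)
    (hN : M + 1 ≤ N) :
    ‖∑ n ∈ Ioc M N, c n * (g n : ℂ)‖ ≤ 2 * D * g N := by
  rw [abel_id c g M N (by omega), Finset.sum_eq_sum_Ico_succ_bot (show M < N by omega)]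
  simp only [Finset.Ioc_self, Finset.sum_empty, zero_mul, zero_add]
  refine (norm_sub_le _ _).trans ?_
  have h1 : ‖(∑ n ∈ Ioc M N, c n) * (g N : ℂ)‖ ≤ D * g N := by
    rw [norm_mul, Complex.norm_real, Real.norm_eq_abs, abs_of_nonneg (hg0 N hN)]
    exact mul_le_mul_of_nonneg_right (hS N (by omega) le_rfl) (hg0 N hN)
  have h2 : ‖∑ n ∈ Ico (M + 1) N, (∑ m ∈ Ioc M n, c m) * ((g (n + 1) - g n : ℝ) : ℂ)‖ ≤
      D * (g N - g (M + 1)) := by
    have h3 : ∑ n ∈ Ico (M + 1) N, D * (g (n + 1) - g n) = D * (g N - g (M + 1)) := by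
      rw [← Finset.mul_sum, Finset.sum_Ico_sub g hN]
    rw [← h3]
    refine (norm_sum_le _ _).trans (Finset.sum_le_sum fun n hn => ?_)
    obtain ⟨hn1, hn2⟩ := mem_Ico.1 hn
    have h5 := hg n hn1
    rw [norm_mul, Complex.norm_real, Real.norm_eq_abs, abs_of_nonneg (by linarith)]
    exact mul_le_mul_of_nonneg_right (hS n (by omega) hn2.le) (by linarith)
  have h8 := hg0 (M + 1) le_rfl
  nlinarith

/-- the weight `1/n` -/
theorem abel_inv (c : ℕ → ℂ) (M N : ℕ) (D : ℝ) (hD : 0 ≤ D)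
    (hS : ∀ n, M ≤ n → n ≤ N → ‖∑ m ∈ Ioc M n, c m‖ ≤ D) (hM : 1 ≤ M) :
    ‖∑ n ∈ Ioc M N, c n / (n : ℂ)‖ ≤ D / M := by
  have h1 := abel_anti c (fun n => 1 / (n : ℝ)) M N D hD hS (fun n hn => by
    have : (0 : ℝ) < n := by
      have : 1 ≤ n := by omega
      exact_mod_cast this
    exact one_div_le_one_div_of_le this (by push_cast; linarith)) (fun n _ => by positivity)
  have h2 : ∑ n ∈ Ioc M N, c n / (n : ℂ) = ∑ n ∈ Ioc M N, c n * ((1 / (n : ℝ) : ℝ) : ℂ) := by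
    refine Finset.sum_congr rfl fun n _ => ?_
    push_cast
    ring
  rw [h2]
  refine h1.trans ?_
  have hM0 : (0 : ℝ) < M := by exact_mod_cast hM
  rw [div_eq_mul_one_div D]
  exact mul_le_mul_of_nonneg_left (one_div_le_one_div_of_le hM0 (by push_cast; linarith)) hD

/-- the weight `log n / n` -/
theorem abel_log_inv (c : ℕ → ℂ) (M N : ℕ) (D : ℝ) (hD : 0 ≤ D)
    (hS : ∀ n, M ≤ n → n ≤ N → ‖∑ m ∈ Ioc M n, c m‖ ≤ D) (hM : 1 ≤ M) :
    ‖∑ n ∈ Ioc M N, c n * ((Real.log n : ℝ) : ℂ) / (n : ℂ)‖ ≤ 2 * D * Real.log N / M := by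
  rcases Nat.eq_zero_or_pos N with h0 | h0
  · subst h0
    simp
  have hlN : 0 ≤ Real.log N := Real.log_nonneg (by exact_mod_cast h0)
  refine abel_inv (fun n => c n * ((Real.log n : ℝ) : ℂ)) M N (2 * D * Real.log N) (by positivity)
    (fun n hn1 hn2 => ?_) hM
  rcases Nat.lt_or_ge n (M + 1) with h1 | h1
  · have : n = M := by omega
    subst this
    simp only [Finset.Ioc_self, Finset.sum_empty, norm_zero]
    positivity
  · have h2 := abel_mono c (fun n => Real.log n) M n D hD (fun m hm1 hm2 => hS m hm1 (hm2.trans hn2))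
      (fun m hm => Real.log_le_log (by exact_mod_cast (show 0 < m by omega))
        (by push_cast; linarith)) (fun m hm => Real.log_nonneg (by exact_mod_cast (show 1 ≤ m by omega)))
      h1
    refine h2.trans ?_
    have h3 : Real.log n ≤ Real.log N :=
      Real.log_le_log (by exact_mod_cast (show 0 < n by omega)) (by exact_mod_cast hn2)
    exact mul_le_mul_of_nonneg_left h3 (by positivity)

/-- splitting a twisted sum into residue classes -/
theorem res_split {q : ℕ} [NeZero q] (χ : DirichletCharacter ℂ q) (I : Finset ℕ) (f : ℕ → ℂ)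
    (D : ℝ) (h : ∀ u : ℕ, ‖∑ n ∈ I.filter (fun n => n ≡ u [MOD q]), f n‖ ≤ D) :
    ‖∑ n ∈ I, χ (n : ZMod q) * f n‖ ≤ q * D := by
  have hq : 0 < q := Nat.pos_of_ne_zero (NeZero.ne q)
  have h1 : ∑ n ∈ I, χ (n : ZMod q) * f n =
      ∑ u ∈ range q, ∑ n ∈ I.filter (fun n => n % q = u), χ (n : ZMod q) * f n := by
    rw [Finset.sum_fiberwise_of_maps_to]
    intro n _
    exact mem_range.2 (Nat.mod_lt _ hq)
  rw [h1]
  refine (norm_sum_le _ _).trans ?_
  have h2 : ∀ u ∈ range q, ‖∑ n ∈ I.filter (fun n => n % q = u), χ (n : ZMod q) * f n‖ ≤ D := by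
    intro u hu
    have hu' := mem_range.1 hu
    have h3 : I.filter (fun n => n % q = u) = I.filter (fun n => n ≡ u [MOD q]) := by
      refine Finset.filter_congr fun n _ => ?_
      unfold Nat.ModEq
      rw [Nat.mod_eq_of_lt hu']
    have h4 : ∑ n ∈ I.filter (fun n => n % q = u), χ (n : ZMod q) * f n =
        χ (u : ZMod q) * ∑ n ∈ I.filter (fun n => n ≡ u [MOD q]), f n := by
      rw [h3, Finset.mul_sum]
      refine Finset.sum_congr rfl fun n hn => ?_
      rw [(ZMod.natCast_eq_natCast_iff n u q).2 (mem_filter.1 hn).2]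
    rw [h4, norm_mul]
    have h5 := DirichletCharacter.norm_le_one χ (u : ZMod q)
    have h6 := h u
    have h7 : 0 ≤ ‖∑ n ∈ I.filter (fun n => n ≡ u [MOD q]), f n‖ := norm_nonneg _
    nlinarith
  refine (Finset.sum_le_sum h2).trans ?_
  rw [Finset.sum_const, card_range, nsmul_eq_mul]

end Pool.Agent.Helper64.GK
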